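import Pool.Agent.Q271.SA.FiveCA

set_option autoImplicit false

/-!
# MP_5ca9a4: the strong arboricity can exceed the colouring number
-/

namespace Pool.Agent.Results.MP_5ca9a4_co.ZetaAboveCol

open Pool.Agent.Q271.SA

/-- **MP_5ca9a4, negative answer.** There is a graph with 11 vertices whose colouring number is at
most `3` and whose strong arboricity is at least `4`; so `ζ(G) ≤ col(G)` fails. -/
theorem result : ∃ G : SimpleGraph (Fin 11), col G ≤ 3 ∧ 4 ≤ zeta G :=
  ⟨FiveCA.G, FiveCA.col_le, le_zeta_of FiveCA.no_three⟩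

end Pool.Agent.Results.MP_5ca9a4_co.ZetaAboveCol
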